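import Pool.Agent.Helper9.TDBasic

/-!
# MP_8ac8bf_al: a tridiagonal pair over `ℝ` with two non-proportional invariant symmetric forms
-/

set_option autoImplicit false

namespace Pool.Agent.Results.MP_8ac8bf_al.TwoForms

open Pool.Agent.Helper9.TD Module

/-- `(A, B)`-invariance of a bilinear form -/
def Invariant {K V : Type*} [Field K] [AddCommGroup V] [Module K V] (A B : Module.End K V)
    (f : LinearMap.BilinForm K V) : Prop :=
  (∀ u v, f (A u) v = f u (A v)) ∧ (∀ u v, f (B u) v = f u (B v))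

/-- `A (x, y) = (x, -y)` -/
def A : Module.End ℝ (ℂ × ℂ) where
  toFun v := (v.1, -v.2)
  map_add' u v := by ext <;> simp [add_comm]
  map_smul' c v := by ext <;> simp

/-- `B (x, y) = (i x + y, 2 x - i y)` -/
def B : Module.End ℝ (ℂ × ℂ) where
  toFun v := (Complex.I * v.1 + v.2, 2 * v.1 - Complex.I * v.2)
  map_add' u v := by
    refine Prod.ext ?_ ?_
    · show Complex.I * (u.1 + v.1) + (u.2 + v.2) = (Complex.I * u.1 + u.2) + (Complex.I * v.1 + v.2)
      ring
    · show 2 * (u.1 + v.1) - Complex.I * (u.2 + v.2) =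
        (2 * u.1 - Complex.I * u.2) + (2 * v.1 - Complex.I * v.2)
      ring
  map_smul' c v := by
    refine Prod.ext ?_ ?_
    · show Complex.I * (c • v.1) + (c • v.2) = c • (Complex.I * v.1 + v.2)
      simp only [Complex.real_smul]
      ring
    · show 2 * (c • v.1) - Complex.I * (c • v.2) = c • (2 * v.1 - Complex.I * v.2)
      simp only [Complex.real_smul]
      ring

theorem A_apply (v : ℂ × ℂ) : A v = (v.1, -v.2) := rfl

theorem B_apply (v : ℂ × ℂ) : B v = (Complex.I * v.1 + v.2, 2 * v.1 - Complex.I * v.2) := rfl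

theorem A_sq (v : ℂ × ℂ) : A (A v) = v := by
  simp [A_apply]

theorem B_sq (v : ℂ × ℂ) : B (B v) = v := by
  rw [B_apply, B_apply]
  refine Prod.ext ?_ ?_
  · show Complex.I * (Complex.I * v.1 + v.2) + (2 * v.1 - Complex.I * v.2) = v.1
    linear_combination v.1 * Complex.I_mul_I
  · show 2 * (Complex.I * v.1 + v.2) - Complex.I * (2 * v.1 - Complex.I * v.2) = v.2
    linear_combination v.2 * Complex.I_mul_I

/-- two involutions, different from `1` and `-1`, satisfy the ordering conditions -/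
theorem ordering {V : Type*} [AddCommGroup V] [Module ℝ V] (S T : Module.End ℝ V)
    (hS : ∀ v, S (S v) = v) (h1 : ∃ v, S v = v ∧ v ≠ 0) (h2 : ∃ v, S v = -v ∧ v ≠ 0) :
    TDOrdering S T 1 (fun i => if i = 0 then 1 else -1) := by
  have htop : (⨆ (i : ℕ) (_ : i ≤ 1), S.eigenspace ((fun i : ℕ => if i = 0 then (1 : ℝ) else -1) i)) =
      ⊤ := by
    rw [eq_top_iff]
    intro v _
    have e : v = (1/2 : ℝ) • (v + S v) + (1/2 : ℝ) • (v - S v) := by
      rw [← smul_add]
      have : v + S v + (v - S v) = (2 : ℝ) • v := by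
        rw [two_smul]
        abel
      rw [this, smul_smul]
      norm_num
    rw [e]
    refine Submodule.add_mem _ ?_ ?_
    · refine Submodule.mem_iSup_of_mem 0 (Submodule.mem_iSup_of_mem (by norm_num) ?_)
      rw [Module.End.mem_eigenspace_iff]
      show S ((1/2 : ℝ) • (v + S v)) = (if (0 : ℕ) = 0 then (1 : ℝ) else -1) • (1/2 : ℝ) • (v + S v)
      rw [if_pos rfl, one_smul, map_smul, map_add, hS, add_comm]
    · refine Submodule.mem_iSup_of_mem 1 (Submodule.mem_iSup_of_mem le_rfl ?_)
      rw [Module.End.mem_eigenspace_iff]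
      show S ((1/2 : ℝ) • (v - S v)) = (if (1 : ℕ) = 0 then (1 : ℝ) else -1) • (1/2 : ℝ) • (v - S v)
      rw [if_neg one_ne_zero, neg_one_smul, map_smul, map_sub, hS, ← smul_neg, neg_sub]
  refine ⟨?_, ?_, htop, ?_⟩
  · intro i hi j hj hij
    interval_cases i <;> interval_cases j <;> simp at hij ⊢
    · norm_num at hij
    · norm_num at hij
  · intro i hi
    interval_cases i
    · obtain ⟨v, hv, hv0⟩ := h1
      show S.HasEigenvalue (if (0 : ℕ) = 0 then (1 : ℝ) else -1)
      rw [if_pos rfl]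
      exact Module.End.hasEigenvalue_of_hasEigenvector
        (Module.End.hasEigenvector_iff.2 ⟨Module.End.mem_eigenspace_iff.2 (by rw [hv, one_smul]), hv0⟩)
    · obtain ⟨v, hv, hv0⟩ := h2
      show S.HasEigenvalue (if (1 : ℕ) = 0 then (1 : ℝ) else -1)
      rw [if_neg one_ne_zero]
      exact Module.End.hasEigenvalue_of_hasEigenvector
        (Module.End.hasEigenvector_iff.2
          ⟨Module.End.mem_eigenspace_iff.2 (by rw [hv, neg_one_smul]), hv0⟩)
  · intro i hi
    have : (⨆ (j : ℕ) (_ : j ≤ 1 ∧ j ≤ i + 1 ∧ i ≤ j + 1),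
        S.eigenspace ((fun i : ℕ => if i = 0 then (1 : ℝ) else -1) j)) = ⊤ := by
      rw [eq_top_iff, ← htop]
      refine iSup₂_le fun j hj => ?_
      exact le_iSup₂_of_le j ⟨hj, by omega, by omega⟩ le_rfl
    rw [this]
    exact le_top

theorem pair : TDPair A B where
  ordA := ⟨1, _, ordering A B A_sq ⟨(1, 0), by simp [A_apply], by simp⟩
    ⟨(0, 1), by simp [A_apply], by simp⟩⟩
  ordB := ⟨1, _, ordering B A B_sq
    ⟨(1, 0) + B (1, 0), by rw [map_add, B_sq, add_comm], by
      intro h
      have := congrArg Prod.snd h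
      simp [B_apply] at this⟩
    ⟨(1, 0) - B (1, 0), by rw [map_sub, B_sq, neg_sub], by
      intro h
      have := congrArg Prod.snd h
      simp [B_apply] at this⟩⟩
  irred := by
    intro W hA hB
    by_cases h0 : W = ⊥
    · exact Or.inl h0
    · right
      obtain ⟨w, hw, hw0⟩ := Submodule.exists_mem_ne_zero_of_ne_bot h0
      -- components
      have c1 : ∀ v ∈ W, ((v.1, 0) : ℂ × ℂ) ∈ W := by
        intro v hv
        have e : ((v.1, 0) : ℂ × ℂ) = (1/2 : ℝ) • (v + A v) := by
          rw [A_apply]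
          refine Prod.ext ?_ ?_
          · show v.1 = (1/2 : ℝ) • (v.1 + v.1)
            rw [Complex.real_smul]
            push_cast
            ring
          · show 0 = (1/2 : ℝ) • (v.2 + -v.2)
            simp
        rw [e]
        exact W.smul_mem _ (W.add_mem hv (hA v hv))
      have c2 : ∀ v ∈ W, ((0, v.2) : ℂ × ℂ) ∈ W := by
        intro v hv
        have e : ((0, v.2) : ℂ × ℂ) = v - ((v.1, 0) : ℂ × ℂ) := by
          ext <;> simp
        rw [e]
        exact W.sub_mem hv (c1 v hv)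
      -- from the second to the first component and back
      have d1 : ∀ x : ℂ, ((x, 0) : ℂ × ℂ) ∈ W → ((Complex.I * x, 0) : ℂ × ℂ) ∈ W ∧
          ((0, x) : ℂ × ℂ) ∈ W := by
        intro x hx
        have h1 := hB _ hx
        rw [B_apply] at h1
        have h2 := c1 _ h1
        have h3 := c2 _ h1
        simp only [add_zero, mul_zero, sub_zero] at h2 h3
        refine ⟨h2, ?_⟩
        have e : ((0, x) : ℂ × ℂ) = (1/2 : ℝ) • ((0, 2 * x) : ℂ × ℂ) := by
          refine Prod.ext ?_ ?_
          · show 0 = (1/2 : ℝ) • (0 : ℂ)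
            simp
          · show x = (1/2 : ℝ) • (2 * x)
            rw [Complex.real_smul]
            push_cast
            ring
        rw [e]
        exact W.smul_mem _ h3
      have d2 : ∀ x : ℂ, ((0, x) : ℂ × ℂ) ∈ W → ((x, 0) : ℂ × ℂ) ∈ W := by
        intro x hx
        have h1 := hB _ hx
        rw [B_apply] at h1
        have h2 := c1 _ h1
        simpa using h2
      obtain ⟨x, hx0, hx⟩ : ∃ x : ℂ, x ≠ 0 ∧ ((x, 0) : ℂ × ℂ) ∈ W := by
        by_cases hw1 : w.1 = 0
        · have hw2 : w.2 ≠ 0 := fun h2 => hw0 (Prod.ext hw1 h2)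
          exact ⟨w.2, hw2, d2 _ (c2 w hw)⟩
        · exact ⟨w.1, hw1, c1 w hw⟩
      -- all first components
      have full : ∀ z : ℂ, ((z, 0) : ℂ × ℂ) ∈ W := by
        intro z
        have e : ((z, 0) : ℂ × ℂ) = (z / x).re • ((x, 0) : ℂ × ℂ) +
            (z / x).im • ((Complex.I * x, 0) : ℂ × ℂ) := by
          refine Prod.ext ?_ ?_
          · show z = (z / x).re • x + (z / x).im • (Complex.I * x)
            rw [Complex.real_smul, Complex.real_smul]
            have h1 : ((z / x).re : ℂ) + (z / x).im * Complex.I = z / x := Complex.re_add_im _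
            calc z = (z / x) * x := by field_simp
              _ = (((z / x).re : ℂ) + (z / x).im * Complex.I) * x := by rw [h1]
              _ = _ := by ring
          · show 0 = (z / x).re • (0 : ℂ) + (z / x).im • (0 : ℂ)
            simp
        rw [e]
        exact W.add_mem (W.smul_mem _ hx) (W.smul_mem _ (d1 x hx).1)
      rw [eq_top_iff]
      intro v _
      have e : v = ((v.1, 0) : ℂ × ℂ) + ((0, v.2) : ℂ × ℂ) := by
        ext <;> simp
      rw [e]
      exact W.add_mem (full _) (d1 _ (full v.2)).2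

/-- the real part of `2 u₁ v₁ + u₂ v₂` -/
noncomputable def f : LinearMap.BilinForm ℝ (ℂ × ℂ) :=
  LinearMap.mk₂ ℝ (fun u v => (2 * u.1 * v.1 + u.2 * v.2).re)
    (by intro u u' v; simp; ring) (by intro c u v; simp; ring)
    (by intro u u' v; simp; ring) (by intro c u v; simp; ring)

/-- the imaginary part of `2 u₁ v₁ + u₂ v₂` -/
noncomputable def g : LinearMap.BilinForm ℝ (ℂ × ℂ) :=
  LinearMap.mk₂ ℝ (fun u v => (2 * u.1 * v.1 + u.2 * v.2).im)
    (by intro u u' v; simp; ring) (by intro c u v; simp; ring)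
    (by intro u u' v; simp; ring) (by intro c u v; simp; ring)

theorem f_apply (u v : ℂ × ℂ) : f u v = (2 * u.1 * v.1 + u.2 * v.2).re := rfl

theorem g_apply (u v : ℂ × ℂ) : g u v = (2 * u.1 * v.1 + u.2 * v.2).im := rfl

theorem invA (u v : ℂ × ℂ) : 2 * (A u).1 * v.1 + (A u).2 * v.2 =
    2 * u.1 * (A v).1 + u.2 * (A v).2 := by
  rw [A_apply, A_apply]
  ring

theorem invB (u v : ℂ × ℂ) : 2 * (B u).1 * v.1 + (B u).2 * v.2 =
    2 * u.1 * (B v).1 + u.2 * (B v).2 := by
  rw [B_apply, B_apply]
  ring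

theorem result : ∃ A B : Module.End ℝ (ℂ × ℂ), TDPair A B ∧
    ∃ f g : LinearMap.BilinForm ℝ (ℂ × ℂ), f ≠ 0 ∧ g ≠ 0 ∧
      (∀ u v, f u v = f v u) ∧ (∀ u v, g u v = g v u) ∧ Invariant A B f ∧ Invariant A B g ∧
      ∀ c : ℝ, f ≠ c • g := by
  refine ⟨A, B, pair, f, g, ?_, ?_, ?_, ?_, ⟨?_, ?_⟩, ⟨?_, ?_⟩, ?_⟩
  · intro h
    have := DFunLike.congr_fun (DFunLike.congr_fun h (0, 1)) (0, 1)
    simp [f_apply] at this
  · intro h
    have := DFunLike.congr_fun (DFunLike.congr_fun h (0, 1)) (0, Complex.I)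
    simp [g_apply] at this
  · intro u v
    rw [f_apply, f_apply]
    congr 1
    ring
  · intro u v
    rw [g_apply, g_apply]
    congr 1
    ring
  · intro u v
    rw [f_apply, f_apply, invA]
  · intro u v
    rw [f_apply, f_apply, invB]
  · intro u v
    rw [g_apply, g_apply, invA]
  · intro u v
    rw [g_apply, g_apply, invB]
  · intro c h
    have := DFunLike.congr_fun (DFunLike.congr_fun h (0, 1)) (0, 1)
    rw [LinearMap.smul_apply, LinearMap.smul_apply] at this
    simp [f_apply, g_apply] at this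

end Pool.Agent.Results.MP_8ac8bf_al.TwoForms
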